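import Mathlib
import Pool.Agent.H65R3.Aut

/-!
# MP_8fa3e4_lc, Q1: a consistent nontrivial automorphism at an uncountable cardinal
-/

namespace Pool.Agent.Results.MP_8fa3e4_lc.SingularCofOmega

open Cardinal Pool.Agent.H65R3 Pool.Agent.H65R3.Lang

/-- There are uncountable strong limit cardinals `κ` of countable cofinality, and for each of them
there is a nonempty forcing notion `P`, every condition of which forces that `κ` is still a
cardinal and that the quotient of the power set of `κ` by the ideal of the sets of size less than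
`κ` has a nontrivial automorphism; moreover `P` adds no new function from `κ` to a set of the
ground model. -/
theorem result :
    (∃ κ : Cardinal.{0}, ℵ₀ < κ ∧ κ.IsStrongLimit ∧ κ.ord.cof = ℵ₀) ∧
    ∀ κ : Cardinal.{0}, ℵ₀ < κ → κ.IsStrongLimit → κ.ord.cof = ℵ₀ →
      ∃ (P : Type) (_ : Preorder P), Nonempty P ∧
        (∀ p : P, p ∈ StaysCardinal P κ ∧ p ∈ HasNontrivialAut P κ) ∧ NoNewFunctions P κ := by
  refine ⟨Data.exists_card, fun κ h1 h2 h3 => ?_⟩
  obtain ⟨L⟩ := Data.exists_lev h1 h2 h3
  exact ⟨Aut.Q L, inferInstance, Aut.nonempty_Q L,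
    fun p => ⟨Gen.staysCardinal (Aut.distr L) p, Aut.hasNontrivialAut L h1.le p⟩,
    Gen.noNewFunctions (Aut.distr L)⟩

end Pool.Agent.Results.MP_8fa3e4_lc.SingularCofOmega
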